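import Pool.Agent.W5h26.ML.Sharp

/-!
# The one-sided logarithmic mean laws for a general system of primes
-/

set_option autoImplicit false

open MeasureTheory Filter Topology Set Complex
open scoped ENNReal
open Pool.Agent.TH942.LS (Dat)
open Pool.Agent.TH942.SL
open Pool.Agent.TH942.ES
open Pool.Agent.TH270.MS
open Pool.Agent.TH270.RS (cS' dat' DD_neg)

namespace Pool.Agent.W5h26.ML

variable {X : Type} {d : ℕ} {N : X → ℕ} {α : X → Fin d → ℂ} {G₀ : ℂ → ℂ} {k : ℕ}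

/-- a system of primes, and a continuation `G₀` of `s^k` times the Euler product to `Re s > 0` and to
`s = 0` -/
structure Mh (N : X → ℕ) (α : X → Fin d → ℂ) (G₀ : ℂ → ℂ) (k : ℕ) : Prop where
  E : Sys N α
  hreal : ∀ v k, (∑ i, zv N α v i ^ k).im = 0
  hG : ∀ s : ℂ, 0 < s.re → DifferentiableAt ℂ G₀ s
  h0 : AnalyticAt ℂ G₀ 0
  hL : ∀ s : ℂ, 1 / 2 < s.re → G₀ s = s ^ k * LE N α s

theorem Mh.hy (H : Mh N α G₀ k) : ∃ (e : X × ℕ → ℕ) (g : ℂ → ℂ) (p : ℕ), Function.Injective e ∧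
    analyticOrderAt G₀ 0 = p ∧ Hy (lamS N e) (cS' N α e) (Real.log 2) 1 G₀ g k p := by
  have E := H.E
  have := E.cnt
  obtain ⟨e, he⟩ := Countable.exists_injective_nat (X × ℕ)
  have hexp : ∀ s : ℂ, 1 < s.re → s ^ k * exp (-DD (lamS N e) (cS' N α e) s) = G₀ s := by
    intro s hs
    rw [DD_neg, E.exp_DD H.hreal he (by linarith), H.hL s (by linarith)]
  have hU : IsOpen {s : ℂ | 0 < s.re} := isOpen_lt continuous_const Complex.continuous_re
  have hUc : Convex ℝ {s : ℂ | 0 < s.re} := convex_halfSpace_re_gt _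
  have a1 : AnalyticOnNhd ℂ G₀ {s : ℂ | 0 < s.re} :=
    DifferentiableOn.analyticOnNhd (fun z hz => (H.hG z hz).differentiableWithinAt) hU
  have hfin : analyticOrderAt G₀ 0 ≠ ⊤ := by
    intro htop
    rw [analyticOrderAt_eq_top] at htop
    obtain ⟨ε, hε, hball⟩ := Metric.eventually_nhds_iff_ball.1 htop
    have hz : ((ε / 2 : ℝ) : ℂ) ∈ {s : ℂ | 0 < s.re} := by
      show (0 : ℝ) < (((ε / 2 : ℝ) : ℂ)).re
      rw [Complex.ofReal_re]
      positivity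
    have hnear : G₀ =ᶠ[𝓝 ((ε / 2 : ℝ) : ℂ)] fun _ => 0 := by
      have hb : ((ε / 2 : ℝ) : ℂ) ∈ Metric.ball (0 : ℂ) ε := by
        rw [Metric.mem_ball, dist_zero_right, Complex.norm_real, Real.norm_of_nonneg (by positivity)]
        linarith
      filter_upwards [Metric.isOpen_ball.mem_nhds hb] with z hz
      exact hball z hz
    have h1 := a1.eqOn_of_preconnected_of_eventuallyEq (analyticOnNhd_const (v := (0 : ℂ)))
      hUc.isPreconnected hz hnear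
    have h2 : G₀ 2 = 0 := h1 (show 0 < (2 : ℂ).re by simp)
    have h3 := hexp 2 (by norm_num)
    rw [h2] at h3
    exact mul_ne_zero (pow_ne_zero _ two_ne_zero) (Complex.exp_ne_zero _) h3
  obtain ⟨p, hp⟩ := ENat.ne_top_iff_exists.1 hfin
  have hm := hp.symm
  rw [H.h0.analyticOrderAt_eq_natCast] at hm
  obtain ⟨g, hg, hg1, hge⟩ := hm
  refine ⟨e, g, p, he, hp.symm, dat' E he, H.hG, hexp, hg, hg1, ?_⟩
  filter_upwards [hge] with z hz
  rw [hz, sub_zero, smul_eq_mul]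

/-- `log log` is nonnegative -/
lemma loglog_nonneg {y : ℝ} (hy : Real.exp 1 ≤ y) : 0 ≤ Real.log (Real.log y) :=
  Real.log_nonneg (one_le_log hy)

/-- the deviation -/
noncomputable def dev (N : X → ℕ) (α : X → Fin d → ℂ) (ρ y : ℝ) : ℝ :=
  LP N α y - ρ * Real.log (Real.log y)

theorem dev_bm (E : Sys N α) (ρ : ℝ) : BM (dev N α ρ) :=
  (lp_bm E).sub ((BM.const ρ).mul BM.loglog)

theorem devP_bm (E : Sys N α) (ρ : ℝ) : BM (fun y => -(Pl N α y + ρ * Real.log (Real.log y))) :=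
  ((pl_bm E).add ((BM.const ρ).mul BM.loglog)).neg

theorem dev_close (E : Sys N α) : ∃ M : ℝ, ∀ ρ y : ℝ, Real.exp 1 ≤ y →
    |dev N α ρ y - -(Pl N α y + ρ * Real.log (Real.log y))| ≤ M := by
  obtain ⟨M, hM⟩ := lp_pl E
  refine ⟨M, fun ρ y hy => ?_⟩
  have h1 : dev N α ρ y - -(Pl N α y + ρ * Real.log (Real.log y)) = LP N α y + Pl N α y := by
    unfold dev
    ring
  rw [h1]
  exact hM y (by linarith [Real.add_one_le_exp 1])

/-- change of variables in the law -/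
theorem law_cov (E : Sys N α) {e : X × ℕ → ℕ} (he : Function.Injective e) (ρ : ℝ)
    (φ : ℝ → ℝ) :
    Law (fun y => φ (-(Pl N α y + ρ * Real.log (Real.log y)))) ↔
      ∃ B : ℝ, ∀ᶠ T : ℝ in atTop, ∫ u in (1 : ℝ)..T,
        φ (Sh (lamS N e) (cS' N α e) u - ρ * Real.log u) ≤ B * T := by
  unfold Law
  refine exists_congr fun B => ?_
  rw [eventually_exp_iff (f := fun Y => ∫ y in Real.exp 1..Y,
    φ (-(Pl N α y + ρ * Real.log (Real.log y))) / y ≤ B * Real.log Y)]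
  refine eventually_congr ?_
  filter_upwards [eventually_ge_atTop 1] with T hT
  rw [Real.log_exp, ← cov_ii _ hT]
  have : ∫ X in Real.exp 1..Real.exp T, φ (Sh (lamS N e) (cS' N α e) (Real.log X) -
      ρ * Real.log (Real.log X)) / X =
      ∫ y in Real.exp 1..Real.exp T, φ (-(Pl N α y + ρ * Real.log (Real.log y))) / y := by
    refine intervalIntegral.integral_congr fun Y hY => ?_
    rw [uIcc_of_le (Real.exp_le_exp.2 hT)] at hY
    have h0 : 0 < Y := (Real.exp_pos 1).trans_le hY.1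
    rw [sh_eq E he, Real.exp_log h0]
    congr 2
    ring
  rw [this]

/-- **Upper bounds in the logarithmic mean.** -/
theorem Mh.upper (H : Mh N α G₀ k) {ρ : ℝ} (h : Law fun y => max (dev N α ρ y) 0) :
    (∀ s : ℂ, 0 < s.re → G₀ s ≠ 0) ∧ ∀ p : ℕ, analyticOrderAt G₀ 0 = p → (p : ℝ) ≤ k + ρ := by
  obtain ⟨e, g, p, he, hp, Q⟩ := H.hy
  obtain ⟨M, hM⟩ := dev_close H.E
  have h1 : Law fun y => max (-(Pl N α y + ρ * Real.log (Real.log y))) 0 :=
    (law_iff_of_close (dev_bm H.E ρ) (devP_bm H.E ρ) (hM ρ)).1 h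
  obtain ⟨B, hB⟩ := (law_cov H.E he ρ (fun t => max t 0)).1 h1
  obtain ⟨h2, h3⟩ := Q.upper hB
  refine ⟨h2, fun p' hp' => ?_⟩
  have : p' = p := by
    rw [hp] at hp'
    exact_mod_cast hp'.symm
  rwa [this]

/-- **Lower bounds in the logarithmic mean.** -/
theorem Mh.lower (H : Mh N α G₀ k) {ρ : ℝ} (h : Law fun y => max (-dev N α ρ y) 0)
    (hreal : ∀ x : ℝ, 0 < x → G₀ x ≠ 0) :
    (∀ s : ℂ, 0 < s.re → G₀ s ≠ 0) ∧ ∀ p : ℕ, analyticOrderAt G₀ 0 = p → (k : ℝ) + ρ ≤ p := by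
  obtain ⟨e, g, p, he, hp, Q⟩ := H.hy
  obtain ⟨M, hM⟩ := dev_close H.E
  have h1 : Law fun y => max (-(-(Pl N α y + ρ * Real.log (Real.log y)))) 0 :=
    (law_iff_of_close (dev_bm H.E ρ).neg (devP_bm H.E ρ).neg (M := M) fun y hy => by
      rw [neg_sub_neg, abs_sub_comm]
      exact hM ρ y hy).1 h
  obtain ⟨B, hB⟩ := (law_cov H.E he ρ (fun t => max (-t) 0)).1 h1
  have hB' : ∀ᶠ T : ℝ in atTop, ∫ u in (1 : ℝ)..T,
      max (ρ * Real.log u - Sh (lamS N e) (cS' N α e) u) 0 ≤ B * T := by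
    simpa only [neg_sub] using hB
  obtain ⟨h2, h3⟩ := Q.lower hB' hreal
  refine ⟨h2, fun p' hp' => ?_⟩
  have : p' = p := by
    rw [hp] at hp'
    exact_mod_cast hp'.symm
  rwa [this]

/-- a weaker exponent gives a weaker upper law -/
theorem upper_mono (E : Sys N α) {ρ ρ' : ℝ} (hρ : ρ ≤ ρ')
    (h : Law fun y => max (dev N α ρ y) 0) : Law fun y => max (dev N α ρ' y) 0 := by
  refine law_mono (bm_pos (dev_bm E ρ')).li (bm_pos (dev_bm E ρ)).li (fun y hy => ?_) h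
  refine max_le_max ?_ le_rfl
  unfold dev
  have := mul_le_mul_of_nonneg_right hρ (loglog_nonneg hy)
  linarith

theorem lower_mono (E : Sys N α) {ρ ρ' : ℝ} (hρ : ρ' ≤ ρ)
    (h : Law fun y => max (-dev N α ρ y) 0) : Law fun y => max (-dev N α ρ' y) 0 := by
  refine law_mono (bm_pos (dev_bm E ρ').neg).li (bm_pos (dev_bm E ρ).neg).li (fun y hy => ?_) h
  refine max_le_max ?_ le_rfl
  unfold dev
  have := mul_le_mul_of_nonneg_right hρ (loglog_nonneg hy)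
  linarith

variable {Ψ : ℂ → ℂ} {κ : ℕ} {η C : ℝ}

/-- from the structure with growth -/
theorem mh_of_mc (H : Mc N α Ψ G₀ k κ η C) : Mh N α G₀ k where
  E := H.E
  hreal := H.hreal
  hG := fun s hs => H.hG s (by linarith [H.hη])
  h0 := H.ana
  hL := fun s hs => by
    have h0 : s ≠ 0 := by
      rintro rfl
      simp at hs
      linarith
    rw [H.hΨ s (by linarith [H.hη]) h0, H.hL s hs]

/-- **The law holds if there are no zeros**, and then the exceptional sets have finite logarithmic measure -/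
theorem law_of (H : Mc N α Ψ G₀ k κ η C) {p : ℕ} (hp : analyticOrderAt G₀ 0 = p)
    (hne : ∀ s : ℂ, 0 < s.re → G₀ s ≠ 0) :
    (Law fun y => |dev N α ((p : ℝ) - k) y|) ∧
    ∃ M : ℝ, ∫⁻ y in {y : ℝ | Real.exp 1 < y ∧ M < |dev N α ((p : ℝ) - k) y|},
      ENNReal.ofReal (1 / y) < ⊤ := by
  obtain ⟨e, g, q, he, Q⟩ := H.cn
  have hord := (mero_of Q.hg Q.hg0 (local_form H.hη H.hΨ Q.near)).2
  have hpq : q = p := by
    have h1 : analyticOrderAt G₀ 0 = q := by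
      rw [H.ana.analyticOrderAt_eq_natCast]
      refine ⟨g, Q.hg, Q.hg0, ?_⟩
      filter_upwards [Q.near] with z hz
      rw [hz, sub_zero, smul_eq_mul]
    rw [hp] at h1
    exact_mod_cast h1.symm
  rw [hpq] at hord
  have t := H.tfae_order ((p : ℤ) - k)
  have h0 : (∀ s : ℂ, 0 < s.re → Ψ s ≠ 0) ∧ meromorphicOrderAt Ψ 0 = (((p : ℤ) - k : ℤ) : WithTop ℤ) :=
    ⟨H.zf.1 hne, hord⟩
  have hcast : (((p : ℤ) - k : ℤ) : ℝ) = (p : ℝ) - k := by push_cast; rfl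
  obtain ⟨M, hM⟩ := dev_close H.E
  constructor
  · have h1 : ∃ B : ℝ, ∀ᶠ Y : ℝ in atTop, ∫ y in Real.exp 1..Y,
        |Pl N α y + (((p : ℤ) - k : ℤ) : ℝ) * Real.log (Real.log y)| / y ≤ B * Real.log Y :=
      (t.out 0 2).1 h0
    rw [hcast] at h1
    refine bmean_of (f := fun y => -(Pl N α y + ((p : ℝ) - k) * Real.log (Real.log y)))
      (g := dev N α ((p : ℝ) - k)) (devP_bm H.E _).li (dev_bm H.E _).li (M := M) (fun y hy => ?_) ?_
    · rw [abs_sub_comm]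
      exact hM _ y hy
    · simpa only [abs_neg] using h1
  · obtain ⟨A, hA, hint⟩ : ∃ A : ℝ, 0 < A ∧ IntegrableOn
        (fun Y : ℝ => Dv N α ((p : ℤ) - k) A Y ^ 2 / Y) (Ioi (Real.exp 1)) := (t.out 0 1).1 h0
    have h1 := fin_log_meas hint (ε := 1) one_pos (dv_meas H _ A 1)
    refine ⟨1 + |M| + (|(p : ℝ) - k| * |Real.eulerMascheroniConstant| + |Real.log A|),
      lt_of_le_of_lt (lintegral_mono_set fun y hy => ?_) h1⟩
    refine ⟨hy.1, ?_⟩
    have h2 := hM ((p : ℝ) - k) y hy.1.le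
    have h3 := hy.2
    have h4 : dev N α ((p : ℝ) - k) y = (dev N α ((p : ℝ) - k) y -
        -(Pl N α y + ((p : ℝ) - k) * Real.log (Real.log y))) -
        (Dv N α ((p : ℤ) - k) A y - ((p : ℝ) - k) * Real.eulerMascheroniConstant + Real.log A) := by
      unfold Dv
      rw [hcast]
      ring
    have h5 : |dev N α ((p : ℝ) - k) y| ≤ |M| + (|Dv N α ((p : ℤ) - k) A y| +
        |(p : ℝ) - k| * |Real.eulerMascheroniConstant| + |Real.log A|) := by
      rw [h4]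
      refine (abs_sub _ _).trans (add_le_add (h2.trans (le_abs_self M)) ?_)
      refine (abs_add_le _ _).trans (add_le_add ?_ le_rfl)
      refine (abs_sub _ _).trans (add_le_add le_rfl ?_)
      rw [abs_mul]
    linarith

/-- **The one-sided laws under polynomial growth.** -/
theorem laws (H : Mc N α Ψ G₀ k κ η C) {p : ℕ} (hp : analyticOrderAt G₀ 0 = p) (ρ : ℝ) :
    ((Law fun y => max (dev N α ρ y) 0) ↔
      (∀ s : ℂ, 0 < s.re → G₀ s ≠ 0) ∧ (p : ℝ) ≤ k + ρ) ∧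
    ((∀ x : ℝ, 0 < x → G₀ x ≠ 0) → ((Law fun y => max (-dev N α ρ y) 0) ↔
      (∀ s : ℂ, 0 < s.re → G₀ s ≠ 0) ∧ (k : ℝ) + ρ ≤ p)) ∧
    ((Law fun y => |dev N α ρ y|) ↔ (∀ s : ℂ, 0 < s.re → G₀ s ≠ 0) ∧ (p : ℝ) = k + ρ) := by
  have H' := mh_of_mc H
  have hup : (Law fun y => max (dev N α ρ y) 0) ↔
      (∀ s : ℂ, 0 < s.re → G₀ s ≠ 0) ∧ (p : ℝ) ≤ k + ρ := by
    constructor
    · intro h
      obtain ⟨h1, h2⟩ := H'.upper h
      exact ⟨h1, h2 p hp⟩
    · rintro ⟨h1, h2⟩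
      have h3 := (law_abs (dev_bm H.E _)).1 (law_of H hp h1).1
      exact upper_mono H.E (by linarith) h3.1
  have hlow : (∀ x : ℝ, 0 < x → G₀ x ≠ 0) → ((Law fun y => max (-dev N α ρ y) 0) ↔
      (∀ s : ℂ, 0 < s.re → G₀ s ≠ 0) ∧ (k : ℝ) + ρ ≤ p) := by
    intro hreal
    constructor
    · intro h
      obtain ⟨h1, h2⟩ := H'.lower h hreal
      exact ⟨h1, h2 p hp⟩
    · rintro ⟨h1, h2⟩
      have h3 := (law_abs (dev_bm H.E _)).1 (law_of H hp h1).1
      exact lower_mono H.E (by linarith) h3.2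
  refine ⟨hup, hlow, ?_⟩
  rw [law_abs (dev_bm H.E ρ), hup]
  constructor
  · rintro ⟨⟨h1, h2⟩, h3⟩
    have hreal : ∀ x : ℝ, 0 < x → G₀ x ≠ 0 := fun x hx => h1 x (by rwa [Complex.ofReal_re])
    exact ⟨h1, le_antisymm h2 ((hlow hreal).1 h3).2⟩
  · rintro ⟨h1, h2⟩
    have hreal : ∀ x : ℝ, 0 < x → G₀ x ≠ 0 := fun x hx => h1 x (by rwa [Complex.ofReal_re])
    exact ⟨⟨h1, h2.le⟩, (hlow hreal).2 ⟨h1, h2.ge⟩⟩

end Pool.Agent.W5h26.ML
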