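import Pool.Agent.TH270.MS.Main
import Pool.Agent.TH988.RB.Lan

/-!
# One-sided bounds for the logarithmic means of the partial sums of a Dirichlet series

Let `DD(s) = ∑ c_n e^{-λ_n s}` and let `G₀` be a continuation of `s^k exp (-DD(s))` to `Re s > 0` and to a
neighbourhood of `s = 0`, where it has order `p`. Let `Sh(u) = ∑_{λ_n ≤ u} c_n`.

* If `∫_1^T (Sh(u) - r log u)⁺ du ≤ B T` for large `T`, then `G₀` has no zeros with `Re s > 0`, and
  `p - k ≤ r`.
* If `∫_1^T (r log u - Sh(u))⁺ du ≤ B T` for large `T`, then every zero with `Re s > 0` lies to the left of the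
  largest real zero; if there is no real zero, there are no zeros with `Re s > 0`, and `p - k ≥ r`.

No growth of `G₀` is assumed.
-/

set_option autoImplicit false

open MeasureTheory Filter Topology Set
open Pool.Agent.TH942.LS (Dat)
open Pool.Agent.TH942.SL
open Pool.Agent.TH270.MS
open Pool.Agent.W263.BSD (LInt lap lapC lapC_ofReal lapC_differentiableAt)

namespace Pool.Agent.W5h26.ML

variable {lam c : ℕ → ℝ} {δ σ : ℝ} {G₀ g : ℂ → ℂ} {k p : ℕ}

/-- a Dirichlet series and a continuation of `s^k exp (-series)` to `Re s > 0` and to `s = 0` -/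
structure Hy (lam c : ℕ → ℝ) (δ σ : ℝ) (G₀ g : ℂ → ℂ) (k p : ℕ) : Prop where
  D : Dat lam c δ σ
  hG : ∀ s : ℂ, 0 < s.re → DifferentiableAt ℂ G₀ s
  hexp : ∀ s : ℂ, σ < s.re → s ^ k * Complex.exp (-DD lam c s) = G₀ s
  hg : AnalyticAt ℂ g 0
  hg0 : g 0 ≠ 0
  near : ∀ᶠ s in 𝓝 (0 : ℂ), G₀ s = s ^ p * g s

lemma re_an {f : ℂ → ℂ} {x : ℝ} (hf : AnalyticAt ℂ f x) :
    AnalyticAt ℝ (fun x : ℝ => (f x).re) x ∧ AnalyticAt ℝ (fun x : ℝ => (f x).im) x := by
  have h1 : AnalyticAt ℝ f (x : ℂ) := hf.restrictScalars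
  have h2 : AnalyticAt ℝ (fun x : ℝ => (x : ℂ)) x := Complex.ofRealCLM.analyticAt x
  have h3 : AnalyticAt ℝ (fun z : ℂ => z.re) (f x) := Complex.reCLM.analyticAt _
  have h4 : AnalyticAt ℝ (fun z : ℂ => z.im) (f x) := Complex.imCLM.analyticAt _
  exact ⟨AnalyticAt.fun_comp h3 (AnalyticAt.fun_comp h1 h2),
    AnalyticAt.fun_comp h4 (AnalyticAt.fun_comp h1 h2)⟩

lemma log_norm_eq (z : ℂ) : Real.log ‖z‖ = 1 / 2 * Real.log (z.re ^ 2 + z.im ^ 2) := by
  have h1 : z.re ^ 2 + z.im ^ 2 = ‖z‖ ^ 2 := by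
    rw [← Complex.normSq_eq_norm_sq, Complex.normSq_apply]
    ring
  rw [h1, Real.log_pow]
  push_cast
  ring

lemma log_norm_an {f : ℂ → ℂ} {x : ℝ} (hf : AnalyticAt ℂ f x) (h0 : f x ≠ 0) :
    AnalyticAt ℝ (fun x : ℝ => Real.log ‖f x‖) x := by
  obtain ⟨h1, h2⟩ := re_an hf
  have h3 : AnalyticAt ℝ (fun x : ℝ => (f x).re ^ 2 + (f x).im ^ 2) x := (h1.pow 2).add (h2.pow 2)
  have h4 : 0 < (f x).re ^ 2 + (f x).im ^ 2 := by
    have h5 : (f x).re ^ 2 + (f x).im ^ 2 = ‖f x‖ ^ 2 := by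
      rw [← Complex.normSq_eq_norm_sq, Complex.normSq_apply]
      ring
    rw [h5]
    have := norm_pos_iff.2 h0
    positivity
  have h5 : (fun x : ℝ => Real.log ‖f x‖) = fun x : ℝ =>
      1 / 2 * Real.log ((f x).re ^ 2 + (f x).im ^ 2) := by
    funext x
    exact log_norm_eq _
  rw [h5]
  exact analyticAt_const.mul (h3.log h4)

lemma lap_an {f : ℝ → ℝ} (hf : Measurable f) {a : ℝ} (h : ∀ w > a, LInt f w) {x : ℝ} (hx : a < x) :
    AnalyticAt ℝ (lap f) x := by
  have hU : IsOpen {s : ℂ | a < s.re} := isOpen_lt continuous_const Complex.continuous_re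
  have h1 : AnalyticAt ℂ (lapC f) (x : ℂ) :=
    (DifferentiableOn.analyticOnNhd (fun z hz =>
      (lapC_differentiableAt hf h hz).differentiableWithinAt) hU) x (by
        show a < ((x : ℂ)).re
        rwa [Complex.ofReal_re])
  have h2 := (re_an h1).1
  have h3 : (fun x : ℝ => (lapC f x).re) = lap f := by
    funext y
    rw [lapC_ofReal, Complex.ofReal_re]
  rwa [h3] at h2

/-- the real logarithm of the series -/
noncomputable def RL (G₀ : ℂ → ℂ) (k : ℕ) (r c₀ x : ℝ) : ℝ :=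
  (k * Real.log x - Real.log ‖G₀ x‖ + r * Real.log (1 - Real.exp (-x)) - c₀) / x

lemma one_sub_exp_pos {x : ℝ} (hx : 0 < x) : 0 < 1 - Real.exp (-x) := by
  have : Real.exp (-x) < 1 := by rw [Real.exp_lt_one_iff]; linarith
  linarith

lemma Hy.an (H : Hy lam c δ σ G₀ g k p) {x : ℝ} (hx : 0 < x) : AnalyticAt ℂ G₀ (x : ℂ) := by
  have hU : IsOpen {s : ℂ | 0 < s.re} := isOpen_lt continuous_const Complex.continuous_re
  exact (DifferentiableOn.analyticOnNhd (fun z hz => (H.hG z hz).differentiableWithinAt) hU) x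
    (show 0 < ((x : ℂ)).re by rwa [Complex.ofReal_re])

lemma Hy.RL_an (H : Hy lam c δ σ G₀ g k p) (r c₀ : ℝ) {x : ℝ} (hx : 0 < x) (h0 : G₀ x ≠ 0) :
    AnalyticAt ℝ (RL G₀ k r c₀) x := by
  unfold RL
  have h1 : AnalyticAt ℝ Real.log x := analyticAt_log hx
  have h2 := log_norm_an (H.an hx) h0
  have h3 : AnalyticAt ℝ (fun x : ℝ => 1 - Real.exp (-x)) x := by fun_prop
  have h4 := h3.log (one_sub_exp_pos hx)
  exact (((((analyticAt_const (v := (k : ℝ))).mul h1).sub h2).add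
    ((analyticAt_const (v := r)).mul h4)).sub (analyticAt_const (v := c₀))).div analyticAt_id hx.ne'

/-- the transform of the deviation on the real axis -/
lemma Hy.lap_eq (H : Hy lam c δ σ G₀ g k p) (r c₀ : ℝ) {x : ℝ} (hx : σ < x) :
    lap (Er lam c r c₀) x = RL G₀ k r c₀ x := by
  have hσ := H.D.σ0
  have hx0 : 0 < x := hσ.trans hx
  have hxr : σ < ((x : ℂ)).re := by rwa [Complex.ofReal_re]
  have h1 := er_lapC H.D r c₀ (x : ℂ)
  rw [er_lap H.D r c₀ hxr, lapC_ofReal] at h1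
  have hxc : (x : ℂ) ≠ 0 := by exact_mod_cast hx0.ne'
  have h2 := congrArg Complex.re h1
  rw [Complex.ofReal_re, Complex.div_ofReal_re] at h2
  rw [h2]
  unfold RL
  congr 1
  have h3 : ‖G₀ x‖ = x ^ k * Real.exp (-(DD lam c x).re) := by
    rw [← H.hexp _ hxr, norm_mul, norm_pow, Complex.norm_real, Real.norm_of_nonneg hx0.le,
      Complex.norm_exp, Complex.neg_re]
  have h4 : Real.log ‖G₀ x‖ = k * Real.log x - (DD lam c x).re := by
    rw [h3, Real.log_mul (by positivity) (Real.exp_pos _).ne', Real.log_pow, Real.log_exp]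
    ring
  have h5 : Complex.log (1 - Complex.exp (-(x : ℂ))) = ((Real.log (1 - Real.exp (-x)) : ℝ) : ℂ) := by
    rw [Complex.ofReal_log (one_sub_exp_pos hx0).le]
    push_cast
    rfl
  rw [h4, h5]
  simp only [Complex.sub_re, Complex.add_re, Complex.mul_re, Complex.ofReal_re, Complex.ofReal_im]
  ring

/-- the largest real zero -/
lemma Hy.largest (H : Hy lam c δ σ G₀ g k p) {x₀ : ℝ} (hx₀ : 0 < x₀) (h0 : G₀ x₀ = 0) :
    ∃ β : ℝ, x₀ ≤ β ∧ G₀ β = 0 ∧ ∀ x : ℝ, β < x → G₀ x ≠ 0 := by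
  set Z : Set ℝ := {x ∈ Icc x₀ (max σ x₀) | G₀ x = 0} with hZ
  have hcont : ContinuousOn (fun x : ℝ => G₀ x) (Icc x₀ (max σ x₀)) := by
    intro x hx
    have hx0 : 0 < x := hx₀.trans_le hx.1
    have h1 := (H.an hx0).continuousAt
    exact (h1.comp (f := fun x : ℝ => (x : ℂ)) Complex.continuous_ofReal.continuousAt).continuousWithinAt
  have hcl : IsCompact Z := by
    have h1 : IsClosed Z := hcont.preimage_isClosed_of_isClosed isClosed_Icc isClosed_singleton
    exact isCompact_Icc.of_isClosed_subset h1 fun x hx => hx.1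
  obtain ⟨β, hβ, hmax⟩ := hcl.exists_isGreatest ⟨x₀, ⟨le_rfl, le_max_right _ _⟩, h0⟩
  refine ⟨β, hβ.1.1, hβ.2, fun x hx h => ?_⟩
  by_cases hxσ : σ < x
  · have hxr : σ < ((x : ℂ)).re := by rwa [Complex.ofReal_re]
    have hx0 : (x : ℂ) ≠ 0 := by
      have := H.D.σ0
      have : x ≠ 0 := by linarith
      exact_mod_cast this
    rw [← H.hexp _ hxr] at h
    exact mul_ne_zero (pow_ne_zero _ hx0) (Complex.exp_ne_zero _) h
  · have h1 : x ∈ Z := ⟨⟨hβ.1.1.trans hx.le, (not_lt.1 hxσ).trans (le_max_left _ _)⟩, h⟩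
    exact absurd (hmax h1) (not_le.2 hx)

lemma Hy.order_aux (H : Hy lam c δ σ G₀ g k p) (r c₀ : ℝ) : ∃ M : ℝ, ∀ᶠ x in 𝓝[>] (0 : ℝ),
    |x * RL G₀ k r c₀ x - (k + r - p) * Real.log x| ≤ M := by
  have hofr : Tendsto (fun x : ℝ => (x : ℂ)) (𝓝[>] 0) (𝓝 0) := by
    have h2 : Tendsto (fun x : ℝ => (x : ℂ)) (𝓝 0) (𝓝 ((0 : ℝ) : ℂ)) :=
      Complex.continuous_ofReal.continuousAt
    rw [Complex.ofReal_zero] at h2
    exact h2.mono_left nhdsWithin_le_nhds
  have hgc : Tendsto (fun x : ℝ => g x) (𝓝[>] 0) (𝓝 (g 0)) := H.hg.continuousAt.tendsto.comp hofr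
  have hlg : Tendsto (fun x : ℝ => Real.log ‖g x‖) (𝓝[>] 0) (𝓝 (Real.log ‖g 0‖)) :=
    (Real.continuousAt_log (norm_ne_zero_iff.2 H.hg0)).tendsto.comp hgc.norm
  have h1 : ∀ᶠ x : ℝ in 𝓝[>] (0 : ℝ), |Real.log ‖g x‖ - Real.log ‖g 0‖| < 1 := by
    have := (Metric.tendsto_nhds.1 hlg) 1 one_pos
    simpa [Real.dist_eq] using this
  have h2 : ∀ᶠ x : ℝ in 𝓝[>] (0 : ℝ), g (x : ℂ) ≠ 0 := hgc.eventually_ne H.hg0
  have h3 : ∀ᶠ x in 𝓝[>] (0 : ℝ), x < 1 := by
    filter_upwards [nhdsWithin_le_nhds (gt_mem_nhds (one_pos : (0 : ℝ) < 1))] with x hx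
    exact hx
  refine ⟨1 + |Real.log ‖g 0‖| + |r| + |c₀|, ?_⟩
  filter_upwards [h1, h2, h3, hofr.eventually H.near, self_mem_nhdsWithin] with x h4 h5 h6 h7 h8
  have hx0 : (0 : ℝ) < x := h8
  have h9 : Real.log ‖G₀ x‖ = p * Real.log x + Real.log ‖g x‖ := by
    rw [h7, norm_mul, norm_pow, Complex.norm_real, Real.norm_of_nonneg hx0.le,
      Real.log_mul (by positivity) (norm_ne_zero_iff.2 h5), Real.log_pow]
  have h10 := log_one_sub hx0
  have h11 : x * RL G₀ k r c₀ x - (k + r - p) * Real.log x =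
      -(Real.log ‖g x‖ - Real.log ‖g 0‖) - Real.log ‖g 0‖ +
        r * (Real.log (1 - Real.exp (-x)) - Real.log x) - c₀ := by
    unfold RL
    rw [h9]
    field_simp
    ring
  rw [h11]
  have h12 : |r * (Real.log (1 - Real.exp (-x)) - Real.log x)| ≤ |r| := by
    rw [abs_mul]
    calc |r| * _ ≤ |r| * 1 := mul_le_mul_of_nonneg_left (h10.trans h6.le) (abs_nonneg r)
      _ = _ := mul_one _
  have e1 := abs_lt.1 h4
  have e2 := abs_le.1 h12
  have e3 := abs_le.1 (le_refl |Real.log ‖g 0‖|)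
  have e4 := abs_le.1 (le_refl |c₀|)
  rw [abs_le]
  constructor <;> linarith

lemma log_coef {t M : ℝ} (h : ∀ᶠ x in 𝓝[>] (0 : ℝ), t * Real.log x ≤ M) : 0 ≤ t := by
  by_contra hcon
  have ht : t < 0 := not_le.1 hcon
  have h1 : Tendsto (fun x : ℝ => t * Real.log x) (𝓝[>] 0) atTop :=
    Real.tendsto_log_nhdsGT_zero.const_mul_atBot_of_neg ht
  obtain ⟨x, h2, h3⟩ := (h.and (h1.eventually (eventually_gt_atTop M))).exists
  linarith

/-- positive and negative part -/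
noncomputable def Ep (lam c : ℕ → ℝ) (r c₀ : ℝ) (u : ℝ) : ℝ := max (Er lam c r c₀ u) 0

noncomputable def Em (lam c : ℕ → ℝ) (r c₀ : ℝ) (u : ℝ) : ℝ := max (-Er lam c r c₀ u) 0

lemma ep_sub_em (r c₀ u : ℝ) : Er lam c r c₀ u = Ep lam c r c₀ u - Em lam c r c₀ u := by
  unfold Ep Em
  rcases le_total (Er lam c r c₀ u) 0 with h | h
  · rw [max_eq_right h, max_eq_left (by linarith)]; ring
  · rw [max_eq_left h, max_eq_right (by linarith)]; ring

lemma ep_meas (D : Dat lam c δ σ) (r c₀ : ℝ) : Measurable (Ep lam c r c₀) :=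
  (er_meas D r c₀).max measurable_const

lemma em_meas (D : Dat lam c δ σ) (r c₀ : ℝ) : Measurable (Em lam c r c₀) :=
  (er_meas D r c₀).neg.max measurable_const

lemma ep_int (D : Dat lam c δ σ) (r c₀ : ℝ) {x : ℝ} (hx : σ < x) : LInt (Ep lam c r c₀) x :=
  LInt.posPart (er_meas D r c₀) (er_int D r c₀ hx)

lemma em_int (D : Dat lam c δ σ) (r c₀ : ℝ) {x : ℝ} (hx : σ < x) : LInt (Em lam c r c₀) x :=
  LInt.posPart (er_meas D r c₀).neg (er_int D r c₀ hx).neg

lemma er_of (r c₀ : ℝ) {x : ℝ} (h1 : LInt (Ep lam c r c₀) x) (h2 : LInt (Em lam c r c₀) x) :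
    LInt (Er lam c r c₀) x ∧
      lap (Er lam c r c₀) x = lap (Ep lam c r c₀) x - lap (Em lam c r c₀) x := by
  have e : Er lam c r c₀ = fun u => Ep lam c r c₀ u - Em lam c r c₀ u := by
    funext u
    exact ep_sub_em r c₀ u
  rw [e]
  exact ⟨h1.sub h2, Pool.Agent.W263.BSD.lap_sub h1 h2⟩

/-- **Upper bounds, Laplace form.** -/
theorem Hy.upper_lap (H : Hy lam c δ σ G₀ g k p) {r c₀ : ℝ}
    (hint : ∀ x : ℝ, 0 < x → LInt (Ep lam c r c₀) x) {B : ℝ}
    (hB : ∀ᶠ x in 𝓝[>] (0 : ℝ), |x * lap (Ep lam c r c₀) x| ≤ B) :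
    (∀ s : ℂ, 0 < s.re → G₀ s ≠ 0) ∧ (p : ℝ) ≤ k + r := by
  have D := H.D
  have hσ := D.σ0
  have key : ∀ a : ℝ, 0 ≤ a → (∀ x : ℝ, a < x → G₀ x ≠ 0) →
      (∀ w > a, LInt (Em lam c r c₀) w) ∧
      ∀ w > a, lap (Em lam c r c₀) w = lap (Ep lam c r c₀) w - RL G₀ k r c₀ w := by
    intro a ha hne
    refine Pool.Agent.TH988.RB.landau_lap (em_meas D r c₀) (fun u _ => le_max_right _ _)
      (w1 := σ) (fun w hw => em_int D r c₀ hw)
      (g := fun w => lap (Ep lam c r c₀) w - RL G₀ k r c₀ w) (fun w hw => ?_) fun w hw _ => ?_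
    · have hw0 : 0 < w := lt_of_le_of_lt ha hw
      exact (lap_an (ep_meas D r c₀) (a := 0) (fun x hx => hint x hx) hw0).sub
        (H.RL_an r c₀ hw0 (hne w hw))
    · have h1 := (er_of r c₀ (ep_int D r c₀ hw) (em_int D r c₀ hw)).2
      rw [H.lap_eq r c₀ hw] at h1
      linarith
  have hreal : ∀ x : ℝ, 0 < x → G₀ x ≠ 0 := by
    intro x₀ hx₀ h0
    obtain ⟨β, hβ1, hβ2, hβ3⟩ := H.largest hx₀ h0
    have hβ0 : 0 < β := hx₀.trans_le hβ1
    obtain ⟨-, h1⟩ := key β hβ0.le hβ3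
    set m : ℝ → ℝ := fun x => x * lap (Ep lam c r c₀) x -
      (k * Real.log x + r * Real.log (1 - Real.exp (-x)) - c₀) with hm
    have hmc : ContinuousAt m β := by
      have h2 := (lap_an (ep_meas D r c₀) (a := 0) (fun x hx => hint x hx) hβ0).continuousAt
      have h3 := Real.continuousAt_log hβ0.ne'
      have h4 : ContinuousAt (fun x : ℝ => Real.log (1 - Real.exp (-x))) β :=
        ContinuousAt.log (by fun_prop) (one_sub_exp_pos hβ0).ne'
      exact (continuousAt_id.mul h2).sub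
        (((continuousAt_const.mul h3).add (continuousAt_const.mul h4)).sub continuousAt_const)
    have h2 : ∀ x : ℝ, β < x → -Real.log ‖G₀ x‖ ≤ m x := by
      intro x hx
      have hx0 : 0 < x := hβ0.trans hx
      have h3 : 0 ≤ lap (Em lam c r c₀) x :=
        Pool.Agent.W263.BSD.lap_nonneg (fun u _ => le_max_right _ _) x
      have h4 := mul_nonneg hx0.le h3
      rw [h1 x hx] at h4
      have h5 : x * RL G₀ k r c₀ x = k * Real.log x - Real.log ‖G₀ x‖ +
          r * Real.log (1 - Real.exp (-x)) - c₀ := by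
        unfold RL
        field_simp
      rw [mul_sub, h5] at h4
      rw [hm]
      simp only
      linarith
    have h3 : Tendsto (fun x : ℝ => -Real.log ‖G₀ x‖) (𝓝[>] β) atTop := by
      have h4 : Tendsto (fun x : ℝ => ‖G₀ x‖) (𝓝[>] β) (𝓝[>] 0) := by
        rw [tendsto_nhdsWithin_iff]
        refine ⟨?_, ?_⟩
        · have h5 : ContinuousAt (fun x : ℝ => ‖G₀ x‖) β :=
            ((H.an hβ0).continuousAt.comp (f := fun x : ℝ => (x : ℂ))
              Complex.continuous_ofReal.continuousAt).norm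
          have h6 : ‖G₀ β‖ = 0 := by rw [hβ2, norm_zero]
          have h7 := h5.tendsto
          simp only [h6] at h7
          exact h7.mono_left nhdsWithin_le_nhds
        · filter_upwards [self_mem_nhdsWithin] with x hx
          exact norm_pos_iff.2 (hβ3 x hx)
      exact tendsto_neg_atBot_atTop.comp (Real.tendsto_log_nhdsGT_zero.comp h4)
    have h4 : ∀ᶠ x in 𝓝[>] β, m x < m β + 1 :=
      nhdsWithin_le_nhds (hmc.eventually (gt_mem_nhds (by linarith)))
    obtain ⟨x, ⟨h5, h6⟩, h7⟩ := ((h4.and (h3.eventually (eventually_gt_atTop (m β + 1)))).and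
      self_mem_nhdsWithin).exists
    have := h2 x h7
    linarith
  obtain ⟨h1, h2⟩ := key 0 le_rfl hreal
  have hE : ∀ x : ℝ, 0 < x → LInt (Er lam c r c₀) x := fun x hx =>
    (er_of r c₀ (hint x hx) (h1 x hx)).1
  refine ⟨(conv D H.hG H.hexp H.hg H.hg0 H.near hE).1, ?_⟩
  obtain ⟨M, hM⟩ := H.order_aux r c₀
  have h3 : 0 ≤ (k : ℝ) + r - p := by
    refine log_coef (M := M + B) ?_
    filter_upwards [hM, hB, self_mem_nhdsWithin] with x h4 h5 h6
    have hx0 : 0 < x := h6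
    have h7 : 0 ≤ lap (Em lam c r c₀) x :=
      Pool.Agent.W263.BSD.lap_nonneg (fun u _ => le_max_right _ _) x
    have h8 := mul_nonneg hx0.le h7
    rw [h2 x hx0, mul_sub] at h8
    have h9 := (abs_le.1 h4).1
    have h10 := (abs_le.1 h5).2
    linarith
  linarith

/-- **Lower bounds, Laplace form.** -/
theorem Hy.lower_lap (H : Hy lam c δ σ G₀ g k p) {r c₀ : ℝ}
    (hint : ∀ x : ℝ, 0 < x → LInt (Em lam c r c₀) x) {B : ℝ}
    (hB : ∀ᶠ x in 𝓝[>] (0 : ℝ), |x * lap (Em lam c r c₀) x| ≤ B)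
    (hreal : ∀ x : ℝ, 0 < x → G₀ x ≠ 0) :
    (∀ s : ℂ, 0 < s.re → G₀ s ≠ 0) ∧ (k : ℝ) + r ≤ p := by
  have D := H.D
  have hσ := D.σ0
  obtain ⟨h1, h2⟩ : (∀ w > 0, LInt (Ep lam c r c₀) w) ∧
      ∀ w > 0, lap (Ep lam c r c₀) w = lap (Em lam c r c₀) w + RL G₀ k r c₀ w := by
    refine Pool.Agent.TH988.RB.landau_lap (ep_meas D r c₀) (fun u _ => le_max_right _ _)
      (w1 := σ) (fun w hw => ep_int D r c₀ hw)
      (g := fun w => lap (Em lam c r c₀) w + RL G₀ k r c₀ w) (fun w hw => ?_) fun w hw _ => ?_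
    · exact (lap_an (em_meas D r c₀) (a := 0) (fun x hx => hint x hx) hw).add
        (H.RL_an r c₀ hw (hreal w hw))
    · have h1 := (er_of r c₀ (ep_int D r c₀ hw) (em_int D r c₀ hw)).2
      rw [H.lap_eq r c₀ hw] at h1
      linarith
  have hE : ∀ x : ℝ, 0 < x → LInt (Er lam c r c₀) x := fun x hx =>
    (er_of r c₀ (h1 x hx) (hint x hx)).1
  refine ⟨(conv D H.hG H.hexp H.hg H.hg0 H.near hE).1, ?_⟩
  obtain ⟨M, hM⟩ := H.order_aux r c₀
  have h3 : 0 ≤ (p : ℝ) - (k + r) := by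
    refine log_coef (M := M + B) ?_
    filter_upwards [hM, hB, self_mem_nhdsWithin] with x h4 h5 h6
    have hx0 : 0 < x := h6
    have h7 : 0 ≤ lap (Ep lam c r c₀) x :=
      Pool.Agent.W263.BSD.lap_nonneg (fun u _ => le_max_right _ _) x
    have h8 := mul_nonneg hx0.le h7
    rw [h2 x hx0, mul_add] at h8
    have h9 := (abs_le.1 h4).2
    have h10 := (abs_le.1 h5).2
    linarith
  linarith

/-- comparison of the means of the positive parts -/
lemma mean_cmp_pos (D : Dat lam c δ σ) (r t : ℝ) {T : ℝ} (hT : 1 ≤ T) :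
    ∫ u in (1 : ℝ)..T, max (t * Er lam c r (0 - r * Real.eulerMascheroniConstant) u) 0 ≤
      (∫ u in (1 : ℝ)..T, max (t * (Sh lam c u - r * Real.log u)) 0) +
        |t| * (2 * |r|) * Real.log T := by
  have i0 : IntegrableOn (fun u => t * Er lam c r (0 - r * Real.eulerMascheroniConstant) u)
      (Ioc 1 T) := (er_loc D r _ 1 T).const_mul t
  have i1 : IntervalIntegrable
      (fun u => max (t * Er lam c r (0 - r * Real.eulerMascheroniConstant) u) 0) volume 1 T := by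
    rw [intervalIntegrable_iff_integrableOn_Ioc_of_le hT]
    exact i0.pos_part
  have i2 : IntervalIntegrable (fun u => max (t * (Sh lam c u - r * Real.log u)) 0)
      volume 1 T := by
    rw [intervalIntegrable_iff_integrableOn_Ioc_of_le hT]
    have h4 := (ferr_loc D r 0 (b := T) le_rfl).const_mul t
    simp only [sub_zero] at h4
    exact h4.pos_part
  have i3 : IntervalIntegrable (fun u : ℝ => |t| * (2 * |r|) * (1 / u)) volume 1 T := by
    refine ContinuousOn.intervalIntegrable_of_Icc hT ?_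
    refine continuousOn_const.mul (continuousOn_const.div continuousOn_id fun u hu => ?_)
    have : (1 : ℝ) ≤ u := hu.1
    linarith
  have e1 : ∫ u in (1 : ℝ)..T, |t| * (2 * |r|) * (1 / u) = |t| * (2 * |r|) * Real.log T := by
    rw [intervalIntegral.integral_const_mul, integral_one_div_of_pos one_pos (by linarith), div_one]
  rw [← e1, ← intervalIntegral.integral_add i2 i3]
  refine intervalIntegral.integral_mono_on hT i1 (i2.add i3) fun u hu => ?_
  have e2 := cmp D r 0 hu.1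
  rw [sub_zero] at e2
  have e4 : |t| * (2 * |r|) * (1 / u) = |t| * (2 * |r| / u) := by ring
  rw [e4]
  have hu0 : (0 : ℝ) < u := by linarith [hu.1]
  have e5 : |t * (Er lam c r (0 - r * Real.eulerMascheroniConstant) u -
      (Sh lam c u - r * Real.log u))| ≤ |t| * (2 * |r| / u) := by
    rw [abs_mul]
    exact mul_le_mul_of_nonneg_left e2 (abs_nonneg t)
  have e6 := (abs_le.1 e5).2
  have e7 : 0 ≤ |t| * (2 * |r| / u) := by positivity
  refine max_le ?_ (add_nonneg (le_max_right _ _) e7)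
  have e8 := le_max_left (t * (Sh lam c u - r * Real.log u)) 0
  linarith

lemma mean_pos (D : Dat lam c δ σ) {r t B : ℝ}
    (h : ∀ᶠ T : ℝ in atTop, ∫ u in (1 : ℝ)..T, max (t * (Sh lam c u - r * Real.log u)) 0 ≤ B * T) :
    (∀ x : ℝ, 0 < x →
      LInt (fun u => max (t * Er lam c r (0 - r * Real.eulerMascheroniConstant) u) 0) x) ∧
    ∀ᶠ x in 𝓝[>] (0 : ℝ),
      |x * lap (fun u => max (t * Er lam c r (0 - r * Real.eulerMascheroniConstant) u) 0) x| ≤
        2 * (|B| + 1) := by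
  obtain ⟨C₁, hC₁, hb⟩ := er_le D r (0 - r * Real.eulerMascheroniConstant)
  refine mean_lap (((er_meas D r _).const_mul t).max measurable_const) (C := |t| * C₁) (σ := σ)
    (fun u => ?_) (by positivity) ?_
  · rw [abs_of_nonneg (le_max_right _ _)]
    refine max_le ?_ (by positivity)
    calc _ ≤ |t * Er lam c r (0 - r * Real.eulerMascheroniConstant) u| := le_abs_self _
      _ = |t| * |Er lam c r (0 - r * Real.eulerMascheroniConstant) u| := abs_mul _ _
      _ ≤ |t| * (C₁ * Real.exp (σ * u)) := mul_le_mul_of_nonneg_left (hb u) (abs_nonneg t)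
      _ = _ := by ring
  · filter_upwards [h, log_small (B := |t| * (2 * |r|)) one_pos, eventually_ge_atTop 1] with T h1 h2 h3
    have h4 := mean_cmp_pos D r t h3
    have h5 : B * T ≤ |B| * T := mul_le_mul_of_nonneg_right (le_abs_self B) (by linarith)
    have h6 : ∀ u : ℝ, |max (t * Er lam c r (0 - r * Real.eulerMascheroniConstant) u) 0| =
        max (t * Er lam c r (0 - r * Real.eulerMascheroniConstant) u) 0 := fun u =>
      abs_of_nonneg (le_max_right _ _)
    simp only [h6]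
    linarith

/-- **An upper bound in the mean.** -/
theorem Hy.upper (H : Hy lam c δ σ G₀ g k p) {r B : ℝ}
    (h : ∀ᶠ T : ℝ in atTop, ∫ u in (1 : ℝ)..T, max (Sh lam c u - r * Real.log u) 0 ≤ B * T) :
    (∀ s : ℂ, 0 < s.re → G₀ s ≠ 0) ∧ (p : ℝ) ≤ k + r := by
  obtain ⟨h1, h2⟩ := mean_pos H.D (r := r) (t := 1) (B := B) (by simpa only [one_mul] using h)
  simp only [one_mul] at h1 h2
  exact H.upper_lap h1 h2

/-- **A lower bound in the mean.** -/
theorem Hy.lower (H : Hy lam c δ σ G₀ g k p) {r B : ℝ}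
    (h : ∀ᶠ T : ℝ in atTop, ∫ u in (1 : ℝ)..T, max (r * Real.log u - Sh lam c u) 0 ≤ B * T)
    (hreal : ∀ x : ℝ, 0 < x → G₀ x ≠ 0) :
    (∀ s : ℂ, 0 < s.re → G₀ s ≠ 0) ∧ (k : ℝ) + r ≤ p := by
  have e : ∀ u : ℝ, (-1 : ℝ) * (Sh lam c u - r * Real.log u) = r * Real.log u - Sh lam c u :=
    fun u => by ring
  obtain ⟨h1, h2⟩ := mean_pos H.D (r := r) (t := -1) (B := B) (by simpa only [e] using h)
  simp only [neg_one_mul] at h1 h2
  exact H.lower_lap h1 h2 hreal

end Pool.Agent.W5h26.ML
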